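import Pool.Agent.H53.HR.Targets

/-! # MP_f2da09_co: CMP and RMA -/

namespace Pool.Agent.H86.HR

open Finset Pool.Agent.H53.HR

theorem cmp (hsb : HSB) : CMP := by
  intro V _ G B h hB
  classical
  have hne : (B.powerset.filter (fun B' => ¬ HallLE G B' h)).Nonempty :=
    ⟨B, by simp [hB]⟩
  obtain ⟨B', hB', hmin⟩ := Finset.exists_min_image _ (fun s : Finset V => #s) hne
  rw [Finset.mem_filter, Finset.mem_powerset] at hB'
  obtain ⟨hsub, hnot⟩ := hB'
  have hlt : ∀ S ⊆ B', S ≠ B' → HallLE G S h := by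
    intro S hS hne
    by_contra hcon
    have h1 := hmin S (by
      rw [Finset.mem_filter, Finset.mem_powerset]
      exact ⟨hS.trans hsub, hcon⟩)
    have h2 : #S < #B' := Finset.card_lt_card (Finset.ssubset_iff_subset_ne.mpr ⟨hS, hne⟩)
    omega
  refine ⟨B', hsub, ⟨?_, ?_⟩, hnot⟩
  · rw [Finset.nonempty_iff_ne_empty]
    rintro rfl
    apply hnot
    intro U hU
    have hU0 : U = ∅ := Finset.subset_empty.mp hU
    subst hU0
    exact ⟨∅, by simp, by intro x hx; simp at hx, by simp⟩
  · intro S hS hSn hSB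
    by_contra hcon
    push Not at hcon
    apply hnot
    have h1 : HallLE G S h := hlt S hS hSB
    have h2 : HallLE G (B' \ S) h := by
      apply hlt _ Finset.sdiff_subset
      intro heq
      obtain ⟨s, hs⟩ := hSn
      have : s ∈ B' \ S := by rw [heq]; exact hS hs
      rw [Finset.mem_sdiff] at this
      exact this.2 hs
    have h3 := (hsb V G S (B' \ S) h h).2.1 h1 h2 (by
      intro a ha b hb
      rw [Finset.mem_sdiff] at hb
      exact hcon a ha b hb.1 hb.2)
    rwa [Finset.union_sdiff_of_subset hS] at h3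

theorem rma (ram : RAM) : RMA := by
  intro C _ n
  obtain ⟨N, hN⟩ := ram (Fintype.card C) n
  refine ⟨N, fun f => ?_⟩
  obtain ⟨g, hg, hh⟩ := hN (fun a b => Fintype.equivFin C (f a b))
  refine ⟨g, hg, fun a b a' b' h1 h2 => ?_⟩
  have := hh a b a' b' h1 h2
  exact (Fintype.equivFin C).injective this

end Pool.Agent.H86.HR
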