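import Pool.Agent.H53.HR.Targets

/-! # MP_f2da09_co: HOM -/

namespace Pool.Agent.H86.HR

open Finset Pool.Agent.H53.HR

theorem stMono {V : Type} {M m : ℕ} (v : Fin M → V → ZMod 2) (s : Fin 3) (e : Fin m → Fin M)
    (he : StrictMono e) (h : State v s) : State (fun j => v (e j)) s := by
  rcases h with ⟨h1, h2⟩ | ⟨h1, i, h2⟩ | ⟨h1, h2⟩
  · exact Or.inl ⟨h1, fun j => h2 _⟩
  · exact Or.inr (Or.inl ⟨h1, i, fun j => h2 _⟩)
  · exact Or.inr (Or.inr ⟨h1, h2.comp e he.injective⟩)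

theorem homList (tri : TRI) (K : ℕ) (L : List (Fin K × Fin K)) : ∀ m : ℕ, ∃ M : ℕ,
    ∀ (V : Type) (v : Fin K → Fin K → Fin M → V → ZMod 2), ∃ e : Fin m → Fin M,
      StrictMono e ∧ ∀ q ∈ L, ∃ s : Fin 3, State (fun j => v q.1 q.2 (e j)) s := by
  induction L with
  | nil => intro m; exact ⟨m, fun V v => ⟨id, strictMono_id, by simp⟩⟩
  | cons q L ih =>
    intro m
    obtain ⟨M1, hM1⟩ := ih m
    obtain ⟨M2, hM2⟩ := tri M1
    refine ⟨M2, fun V v => ?_⟩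
    obtain ⟨e2, s, he2, hs⟩ := hM2 V (v q.1 q.2)
    obtain ⟨e1, he1, hall⟩ := hM1 V (fun a b j => v a b (e2 j))
    refine ⟨e2 ∘ e1, he2.comp he1, ?_⟩
    intro q' hq'
    rcases List.mem_cons.mp hq' with rfl | h
    · exact ⟨s, stMono _ s e1 he1 hs⟩
    · exact hall q' h

theorem hom (tri : TRI) (rma : RMA) : HOM := by
  intro k m
  obtain ⟨K, hK⟩ := rma (Fin 3) k
  obtain ⟨M, hM⟩ := homList tri K (Finset.univ : Finset (Fin K × Fin K)).toList m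
  refine ⟨K, M, fun V v => ?_⟩
  obtain ⟨e, he, hall⟩ := hM V v
  choose s hs using fun q : Fin K × Fin K => hall q (by simp)
  obtain ⟨g, hg, hgg⟩ := hK (fun a b => s (a, b))
  by_cases hk : ∃ a b : Fin k, a < b
  · obtain ⟨a0, b0, h0⟩ := hk
    refine ⟨g, e, s (g a0, g b0), hg, he, fun a b hab => ?_⟩
    have h1 : s (g a, g b) = s (g a0, g b0) := hgg a b a0 b0 hab h0
    rw [← h1]
    exact hs (g a, g b)
  · exact ⟨g, e, 0, hg, he, fun a b hab => (hk ⟨a, b, hab⟩).elim⟩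

end Pool.Agent.H86.HR
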